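import Pool.Agent.Helper20.Mono.Crd
import Pool.Agent.Helper20.Mono.GoalsH

/-! Packet EX1 of MP_aa7fc1_ag: fans from generic heights. -/

namespace Mono

open Finset

variable {n : ℕ}

theorem indep_of {F : Finset (Fin n → ℤ)}
    (h : ∀ c : (Fin n → ℤ) → ℝ, ∑ u ∈ F, c u • toR u = 0 → ∀ u ∈ F, c u = 0) : Indep F := by
  classical
  unfold Indep
  rw [Fintype.linearIndependent_iff]
  intro g hg u
  have h1 := h (fun v => if hv : v ∈ F then g ⟨v, hv⟩ else 0) (by
    rw [← hg, ← Finset.sum_coe_sort F]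
    exact Finset.sum_congr rfl fun v _ => by simp) u u.2
  simpa using h1

/-- the height of `x` over the cone `F` -/
noncomputable def KF (g : (Fin n → ℤ) → ℝ) (F : Finset (Fin n → ℤ)) (x : Fin n → ℝ) : ℝ :=
  ∑ u ∈ F, crd F x u * g u

theorem KF_add (g : (Fin n → ℤ) → ℝ) {F : Finset (Fin n → ℤ)} (h : Indep F) (hc : F.card = n)
    (x y : Fin n → ℝ) : KF g F (x + y) = KF g F x + KF g F y := by
  unfold KF
  rw [← Finset.sum_add_distrib]
  exact Finset.sum_congr rfl fun u _ => by rw [crd_add h hc, add_mul]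

theorem KF_smul (g : (Fin n → ℤ) → ℝ) {F : Finset (Fin n → ℤ)} (h : Indep F) (hc : F.card = n)
    (a : ℝ) (x : Fin n → ℝ) : KF g F (a • x) = a * KF g F x := by
  unfold KF
  rw [Finset.mul_sum]
  exact Finset.sum_congr rfl fun u _ => by rw [crd_smul h hc, mul_assoc]

/-- `KF` as a linear map -/
noncomputable def KFL (g : (Fin n → ℤ) → ℝ) {F : Finset (Fin n → ℤ)} (h : Indep F)
    (hc : F.card = n) : (Fin n → ℝ) →ₗ[ℝ] ℝ where
  toFun := KF g F
  map_add' := KF_add g h hc
  map_smul' := KF_smul g h hc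

/-- `crd` as a linear map -/
noncomputable def crdLin {F : Finset (Fin n → ℤ)} (h : Indep F)
    (hc : F.card = n) (u : Fin n → ℤ) : (Fin n → ℝ) →ₗ[ℝ] ℝ where
  toFun z := crd F z u
  map_add' x y := crd_add h hc x y u
  map_smul' a x := crd_smul h hc a x u

theorem KF_mem (g : (Fin n → ℤ) → ℝ) {F : Finset (Fin n → ℤ)} (h : Indep F)
    {v : Fin n → ℤ} (hv : v ∈ F) : KF g F (toR v) = g v := by
  classical
  unfold KF
  rw [Finset.sum_eq_single_of_mem v hv]
  · rw [crd_toR h hv, if_pos rfl, one_mul]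
  · intro u _ hu
    rw [crd_toR h hv, if_neg hu, zero_mul]

theorem KF_sum (g : (Fin n → ℤ) → ℝ) {F : Finset (Fin n → ℤ)} (h : Indep F) (hc : F.card = n)
    (G : Finset (Fin n → ℤ)) (c : (Fin n → ℤ) → ℝ) :
    KF g F (∑ u ∈ G, c u • toR u) = ∑ u ∈ G, c u * KF g F (toR u) := by
  change KFL g h hc _ = _
  rw [map_sum]
  exact Finset.sum_congr rfl fun u _ => by rw [map_smul]; rfl

section

variable {R : Finset (Fin n → ℤ)} {g : (Fin n → ℤ) → ℝ}

/-- simplex pivot -/
theorem pivot (hR : GenOrthant R) {F : Finset (Fin n → ℤ)} (hFR : F ⊆ R) (hI : Indep F)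
    (hc : F.card = n) {x : Fin n → ℝ} (hx : ∀ u ∈ F, 0 < crd F x u) {v : Fin n → ℤ} (hv : v ∈ R)
    (hvF : v ∉ F) (hlt : KF g F (toR v) < g v) :
    ∃ F' ⊆ R, Indep F' ∧ F'.card = n ∧ (∀ u, 0 ≤ crd F' x u) ∧ KF g F x < KF g F' x := by
  classical
  set a : (Fin n → ℤ) → ℝ := crd F (toR v) with ha
  have hav : ∑ u ∈ F, a u • toR u = toR v := sum_crd hI hc (toR v)
  have hpos : (F.filter (fun u => 0 < a u)).Nonempty := by
    by_contra hne
    rw [Finset.not_nonempty_iff_eq_empty, Finset.filter_eq_empty_iff] at hne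
    refine hR.2.1 ?_
    have h0 : v = 0 := by
      funext i
      have h1 := congrFun hav i
      rw [Finset.sum_apply] at h1
      have h2 : ∑ u ∈ F, (a u • toR u) i ≤ 0 := by
        refine Finset.sum_nonpos fun u hu => ?_
        rw [Pi.smul_apply, smul_eq_mul, toR_apply]
        exact mul_nonpos_of_nonpos_of_nonneg (not_lt.1 (hne hu))
          (by exact_mod_cast hR.1 u (hFR hu) i)
      rw [h1, toR_apply] at h2
      have h3 : v i ≤ 0 := by exact_mod_cast h2
      exact le_antisymm h3 (hR.1 v hv i)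
    rw [← h0]; exact hv
  obtain ⟨u0, hu0, hmin⟩ := Finset.exists_min_image _ (fun u => crd F x u / a u) hpos
  rw [Finset.mem_filter] at hu0
  obtain ⟨hu0F, ha0⟩ := hu0
  set t : ℝ := crd F x u0 / a u0 with ht
  have htpos : 0 < t := div_pos (hx u0 hu0F) ha0
  have ht0 : crd F x u0 - t * a u0 = 0 := by
    rw [ht, div_mul_cancel₀ _ ha0.ne', sub_self]
  have hcoef : ∀ u ∈ F, 0 ≤ crd F x u - t * a u := by
    intro u hu
    by_cases hau : 0 < a u
    · have h1 := hmin u (Finset.mem_filter.2 ⟨hu, hau⟩)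
      rw [le_div_iff₀ hau] at h1
      linarith
    · have h1 := hx u hu
      nlinarith [not_lt.1 hau]
  have hvE : v ∉ F.erase u0 := fun h => hvF (Finset.mem_of_mem_erase h)
  set F' := insert v (F.erase u0) with hF'
  have hcard : F'.card = n := by
    rw [hF', Finset.card_insert_of_notMem hvE, Finset.card_erase_of_mem hu0F, hc]
    have : 0 < F.card := Finset.card_pos.2 ⟨u0, hu0F⟩
    omega
  have hI' : Indep F' := by
    refine indep_of fun c hc0 => ?_
    rw [hF', Finset.sum_insert hvE, ← hav, Finset.smul_sum] at hc0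
    have h1 : ∑ u ∈ F, (c v * a u + if u = u0 then 0 else c u) • toR u = 0 := by
      rw [← hc0]
      simp only [add_smul]
      rw [Finset.sum_add_distrib]
      congr 1
      · exact Finset.sum_congr rfl fun u _ => by rw [smul_smul]
      · rw [← Finset.add_sum_erase _ _ hu0F, if_pos rfl, zero_smul, zero_add]
        refine Finset.sum_congr rfl fun u hu => ?_
        rw [if_neg (Finset.ne_of_mem_erase hu)]
    have h2 := hI.sum_eq_zero h1
    have h3 := h2 u0 hu0F
    rw [if_pos rfl, add_zero] at h3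
    have h4 : c v = 0 := by
      rcases mul_eq_zero.1 h3 with h | h
      · exact h
      · exact absurd h ha0.ne'
    intro u hu
    rw [hF', Finset.mem_insert] at hu
    rcases hu with rfl | hu
    · exact h4
    · have h5 := h2 u (Finset.mem_of_mem_erase hu)
      rw [h4, zero_mul, zero_add, if_neg (Finset.ne_of_mem_erase hu)] at h5
      exact h5
  -- coordinates in the new cone
  set c' : (Fin n → ℤ) → ℝ := fun u =>
    if u = v then t else if u ∈ F.erase u0 then crd F x u - t * a u else 0 with hc'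
  have hsumE : ∀ (M : (Fin n → ℤ) → ℝ → ℝ), (∀ u, M u 0 = 0) →
      ∑ u ∈ F', M u (c' u) = M v t + ∑ u ∈ F, M u (crd F x u - t * a u) := by
    intro M hM
    rw [hF', Finset.sum_insert hvE, ← Finset.add_sum_erase F _ hu0F, ht0, hM, zero_add]
    congr 1
    · simp [hc']
    · refine Finset.sum_congr rfl fun u hu => ?_
      have : u ≠ v := fun h => hvE (h ▸ hu)
      simp only [hc', if_neg this, if_pos hu]
  have hIs : IsCrd F' x c' := by
    refine ⟨fun u hu => ?_, ?_⟩
    · rw [hF', Finset.mem_insert, not_or] at hu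
      simp only [hc', if_neg hu.1, if_neg hu.2]
    · have h1 : ∑ u ∈ F', c' u • toR u =
          t • toR v + ∑ u ∈ F, (crd F x u - t * a u) • toR u := by
        rw [hF', Finset.sum_insert hvE, ← Finset.add_sum_erase F _ hu0F, ht0, zero_smul, zero_add]
        congr 1
        · simp [hc']
        · refine Finset.sum_congr rfl fun u hu => ?_
          have : u ≠ v := fun h => hvE (h ▸ hu)
          simp only [hc', if_neg this, if_pos hu]
      rw [h1]
      simp only [sub_smul, mul_smul]
      rw [Finset.sum_sub_distrib, sum_crd hI hc, ← Finset.smul_sum, hav]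
      abel
  have hcrd := crd_unique hI' hIs
  refine ⟨F', ?_, hI', hcard, ?_, ?_⟩
  · exact Finset.insert_subset hv ((Finset.erase_subset _ _).trans hFR)
  · intro u
    rw [hcrd]
    simp only [hc']
    split_ifs with h1 h2
    · exact htpos.le
    · exact hcoef u (Finset.mem_of_mem_erase h2)
    · exact le_rfl
  · have h1 : KF g F' x = t * g v + ∑ u ∈ F, (crd F x u - t * a u) * g u := by
      unfold KF
      rw [hcrd]
      exact hsumE (fun u s => s * g u) (fun u => zero_mul _)
    have h2 : ∑ u ∈ F, (crd F x u - t * a u) * g u = KF g F x - t * KF g F (toR v) := by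
      unfold KF
      rw [Finset.mul_sum, ← Finset.sum_sub_distrib]
      exact Finset.sum_congr rfl fun u _ => by ring
    rw [h1, h2]
    nlinarith

theorem axes (hR : GenOrthant R) : ∃ F ⊆ R, Indep F ∧ F.card = n ∧
    ∀ x : Fin n → ℝ, (∀ i, 0 ≤ x i) → ∀ u, 0 ≤ crd F x u := by
  classical
  choose r hr d hd hrd using hR.2.2
  have hinj : Function.Injective r := by
    intro i j hij
    by_contra hne
    have h1 := congrFun hij i
    rw [hrd i, hrd j, Pi.single_eq_same, Pi.single_eq_of_ne hne] at h1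
    exact absurd h1 (hd i).ne'
  have hco : ∀ (c : (Fin n → ℤ) → ℝ) (i : Fin n),
      (∑ u ∈ univ.image r, c u • toR u) i = c (r i) * d i := by
    intro c i
    rw [Finset.sum_image (fun _ _ _ _ h => hinj h), Finset.sum_apply,
      Finset.sum_eq_single_of_mem i (Finset.mem_univ i)]
    · rw [Pi.smul_apply, smul_eq_mul, toR_apply]
      congr 2
      rw [hrd i, Pi.single_eq_same]
    · intro j _ hj
      rw [Pi.smul_apply, smul_eq_mul, toR_apply]
      have : r j i = 0 := by rw [hrd j, Pi.single_eq_of_ne (Ne.symm hj)]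
      rw [this]; simp
  have hI : Indep (univ.image r) := by
    refine indep_of fun c hc u hu => ?_
    obtain ⟨i, _, rfl⟩ := Finset.mem_image.1 hu
    have h1 := hco c i
    rw [hc, Pi.zero_apply] at h1
    have h2 : ((d i : ℤ) : ℝ) ≠ 0 := by exact_mod_cast (hd i).ne'
    rcases mul_eq_zero.1 h1.symm with h | h
    · exact h
    · exact absurd h h2
  have hcard : (univ.image r).card = n := by
    rw [Finset.card_image_of_injective _ hinj]; simp
  refine ⟨univ.image r, ?_, hI, hcard, ?_⟩
  · intro u hu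
    obtain ⟨i, _, rfl⟩ := Finset.mem_image.1 hu
    exact hr i
  · intro x hx u
    by_cases hu : u ∈ univ.image r
    · obtain ⟨i, _, rfl⟩ := Finset.mem_image.1 hu
      have h1 := hco (crd (univ.image r) x) i
      rw [sum_crd hI hcard] at h1
      have h2 : (0 : ℝ) < d i := by exact_mod_cast hd i
      by_contra hneg
      push Not at hneg
      have := hx i
      rw [h1] at this
      nlinarith
    · rw [crd_of_notMem _ _ hu]

open Classical in
/-- the maximal cones -/
noncomputable def mxG (R : Finset (Fin n → ℤ)) (g : (Fin n → ℤ) → ℝ) :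
    Finset (Finset (Fin n → ℤ)) :=
  R.powerset.filter (fun F => F.card = n ∧ Indep F ∧ ∀ v ∈ R, v ∉ F → g v < KF g F (toR v))

theorem mem_mxG {F : Finset (Fin n → ℤ)} : F ∈ mxG R g ↔
    F ⊆ R ∧ F.card = n ∧ Indep F ∧ ∀ v ∈ R, v ∉ F → g v < KF g F (toR v) := by
  classical
  unfold mxG
  rw [Finset.mem_filter, Finset.mem_powerset]

/-- generic points are covered -/
theorem cover_generic (hR : GenOrthant R)
    (hg : ∀ F ⊆ R, F.card = n → Indep F → ∀ v ∈ R, v ∉ F →
      ∑ u ∈ F, crd F (toR v) u * g u ≠ g v)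
    {x : Fin n → ℝ} (hx : ∀ i, 0 ≤ x i)
    (hgen : ∀ F ⊆ R, F.card = n → Indep F → ∀ u ∈ F, crd F x u ≠ 0) :
    ∃ F ∈ mxG R g, ∀ u, 0 ≤ crd F x u := by
  classical
  obtain ⟨F₀, h1, h2, h3, h4⟩ := axes hR
  obtain ⟨F, hF, hmax⟩ := Finset.exists_max_image
    (R.powerset.filter (fun F => F.card = n ∧ Indep F ∧ ∀ u, 0 ≤ crd F x u)) (fun F => KF g F x)
    ⟨F₀, by
      rw [Finset.mem_filter, Finset.mem_powerset]
      exact ⟨h1, h3, h2, h4 x hx⟩⟩
  rw [Finset.mem_filter, Finset.mem_powerset] at hF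
  obtain ⟨hFR, hc, hI, hnn⟩ := hF
  refine ⟨F, mem_mxG.2 ⟨hFR, hc, hI, fun v hv hvF => ?_⟩, hnn⟩
  by_contra hle
  rw [not_lt] at hle
  have hlt : KF g F (toR v) < g v := lt_of_le_of_ne hle (hg F hFR hc hI v hv hvF)
  obtain ⟨F', a1, a2, a3, a4, a5⟩ := pivot hR hFR hI hc
    (fun u hu => lt_of_le_of_ne (hnn u) (hgen F hFR hc hI u hu).symm) hv hvF hlt
  have := hmax F' (by
    rw [Finset.mem_filter, Finset.mem_powerset]
    exact ⟨a1, a3, a2, a4⟩)
  linarith

theorem cover_all (hR : GenOrthant R)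
    (hg : ∀ F ⊆ R, F.card = n → Indep F → ∀ v ∈ R, v ∉ F →
      ∑ u ∈ F, crd F (toR v) u * g u ≠ g v)
    {x : Fin n → ℝ} (hx : ∀ i, 0 ≤ x i) :
    ∃ F ∈ mxG R g, ∀ u, 0 ≤ crd F x u := by
  classical
  by_contra hcon
  push Not at hcon
  have hev : ∀ᶠ t in nhdsWithin (0 : ℝ) (Set.Ioi 0), ∀ F ∈ mxG R g,
      ∃ u, crd F (x + t • (fun _ => 1)) u < 0 := by
    rw [Filter.eventually_all_finset]
    intro F hF
    have hF' := mem_mxG.1 hF
    obtain ⟨u, hu⟩ := hcon F hF
    have hcont : Continuous fun t : ℝ =>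
        crdLin hF'.2.2.1 hF'.2.1 u (x + t • (fun _ => (1 : ℝ))) := by
      have h1 : Continuous (crdLin hF'.2.2.1 hF'.2.1 u) :=
        LinearMap.continuous_of_finiteDimensional _
      exact h1.comp (by fun_prop)
    have h2 : (fun t : ℝ => crdLin hF'.2.2.1 hF'.2.1 u (x + t • (fun _ => (1 : ℝ)))) 0 < 0 := by
      simp only [zero_smul, add_zero]
      exact hu
    have h3 := (hcont.tendsto 0).eventually (gt_mem_nhds h2)
    exact (Filter.Eventually.filter_mono nhdsWithin_le_nhds h3).mono fun t ht => ⟨u, ht⟩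
  obtain ⟨t, ht, ht0⟩ := (hev.and self_mem_nhdsWithin).exists
  have ht0' : 0 < t := ht0
  set w : Fin n → ℝ := x + t • (fun _ => 1) with hw
  have hwpos : ∀ i, 0 < w i := by
    intro i
    have : w i = x i + t * 1 := rfl
    rw [this]
    have := hx i
    linarith
  choose! q hq using ht
  let U : Set (Fin n → ℝ) := (⋂ F ∈ mxG R g, {v | crd F v (q F) < 0}) ∩ ⋂ i : Fin n, {v | 0 < v i}
  have hUo : IsOpen U := by
    refine IsOpen.inter ?_ ?_
    · refine isOpen_biInter_finset fun F hF => ?_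
      have hF' := mem_mxG.1 hF
      have h1 : Continuous (crdLin hF'.2.2.1 hF'.2.1 (q F)) :=
        LinearMap.continuous_of_finiteDimensional _
      exact isOpen_lt h1 continuous_const
    · exact isOpen_iInter_of_finite fun i => isOpen_lt continuous_const (continuous_apply i)
  have hUw : w ∈ U := by
    refine ⟨?_, ?_⟩
    · simp only [Set.mem_iInter, Set.mem_ofPred_eq]
      intro F hF
      exact hq F hF
    · simp only [Set.mem_iInter, Set.mem_ofPred_eq]
      exact hwpos
  have hD : Dense (⋂ p ∈ ((R.powerset.filter (fun F => F.card = n ∧ Indep F)) ×ˢ R :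
      Finset (Finset (Fin n → ℤ) × (Fin n → ℤ))),
      {v : Fin n → ℝ | p.2 ∈ p.1 → crd p.1 v p.2 ≠ 0}) := by
    refine dense_biInter_of_isOpen ?_ (Finset.countable_toSet _) ?_
    · rintro ⟨F, u⟩ hp
      have hF := (Finset.mem_filter.1 (Finset.mem_product.1 hp).1).2
      by_cases hu : u ∈ F
      · have h1 : Continuous (crdLin hF.2 hF.1 u) := LinearMap.continuous_of_finiteDimensional _
        have h2 : {v : Fin n → ℝ | u ∈ F → crd F v u ≠ 0} = {v | crdLin hF.2 hF.1 u v ≠ 0} := by
          ext v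
          simp only [Set.mem_ofPred_eq]
          exact ⟨fun h => h hu, fun h _ => h⟩
        change IsOpen {v : Fin n → ℝ | u ∈ F → crd F v u ≠ 0}
        rw [h2]
        exact isOpen_ne_fun h1 continuous_const
      · have h2 : {v : Fin n → ℝ | u ∈ F → crd F v u ≠ 0} = Set.univ := by
          ext v
          simp [hu]
        change IsOpen {v : Fin n → ℝ | u ∈ F → crd F v u ≠ 0}
        rw [h2]
        exact isOpen_univ
    · rintro ⟨F, u⟩ hp
      have hF := (Finset.mem_filter.1 (Finset.mem_product.1 hp).1).2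
      change Dense {v : Fin n → ℝ | u ∈ F → crd F v u ≠ 0}
      by_cases hu : u ∈ F
      · have h2 : {v : Fin n → ℝ | u ∈ F → crd F v u ≠ 0} =
            ((LinearMap.ker (crdLin hF.2 hF.1 u) : Submodule ℝ (Fin n → ℝ)) :
              Set (Fin n → ℝ))ᶜ := by
          ext v
          simp only [Set.mem_ofPred_eq, Set.mem_compl_iff, SetLike.mem_coe, LinearMap.mem_ker]
          exact ⟨fun h => h hu, fun h _ => h⟩
        rw [h2, ← interior_eq_empty_iff_dense_compl]
        by_contra hne
        rw [← ne_eq, ← Set.nonempty_iff_ne_empty] at hne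
        have h3 := Submodule.eq_top_of_nonempty_interior' _ hne
        have h4 : toR u ∈ LinearMap.ker (crdLin hF.2 hF.1 u) := by rw [h3]; trivial
        rw [LinearMap.mem_ker] at h4
        have h5 : crd F (toR u) u = 0 := h4
        rw [crd_toR hF.2 hu, if_pos rfl] at h5
        exact one_ne_zero h5
      · have h2 : {v : Fin n → ℝ | u ∈ F → crd F v u ≠ 0} = Set.univ := by
          ext v
          simp [hu]
        rw [h2]
        exact dense_univ
  obtain ⟨v, hvU, hvD⟩ := hD.inter_open_nonempty U hUo ⟨w, hUw⟩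
  obtain ⟨F, hF, hFc⟩ := cover_generic hR hg (x := v) (fun i => by
      have := hvU.2
      simp only [Set.mem_iInter, Set.mem_ofPred_eq] at this
      exact (this i).le) (by
    intro F hFR hc hI u hu
    simp only [Set.mem_iInter, Set.mem_ofPred_eq] at hvD
    exact hvD (F, u) (Finset.mem_product.2 ⟨Finset.mem_filter.2
      ⟨Finset.mem_powerset.2 hFR, hc, hI⟩, hFR hu⟩) hu)
  have := hvU.1
  simp only [Set.mem_iInter, Set.mem_ofPred_eq] at this
  exact absurd (this F hF) (not_lt.2 (hFc _))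

theorem inter_aux {F F' : Finset (Fin n → ℤ)} (hF : F ∈ mxG R g) (hF' : F' ∈ mxG R g)
    {x : Fin n → ℝ} (h : ∀ u, 0 ≤ crd F x u) :
    KF g F x ≤ KF g F' x ∧ (KF g F x = KF g F' x → ∀ u, u ∉ F' → crd F x u = 0) := by
  obtain ⟨a1, a2, a3, a4⟩ := mem_mxG.1 hF
  obtain ⟨b1, b2, b3, b4⟩ := mem_mxG.1 hF'
  have hle : ∀ u ∈ F, crd F x u * g u ≤ crd F x u * KF g F' (toR u) := by
    intro u hu
    refine mul_le_mul_of_nonneg_left ?_ (h u)
    by_cases hu' : u ∈ F'
    · rw [KF_mem g b3 hu']
    · exact (b4 u (a1 hu) hu').le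
  have hx : KF g F' x = ∑ u ∈ F, crd F x u * KF g F' (toR u) := by
    conv_lhs => rw [← sum_crd a3 a2 x]
    exact KF_sum g b3 b2 F _
  refine ⟨?_, fun heq u hu => ?_⟩
  · rw [hx]
    exact Finset.sum_le_sum hle
  · by_cases huF : u ∈ F
    · rw [hx] at heq
      have h1 := (Finset.sum_eq_sum_iff_of_le hle).1 heq u huF
      have h2 := b4 u (a1 huF) hu
      by_contra hne
      have h3 := mul_left_cancel₀ hne h1
      linarith
    · exact crd_of_notMem _ _ huF

end

theorem fanOfGeneric : FanOfGeneric := by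
  classical
  intro n R g hR hg
  refine ⟨{ vert := R
            mx := mxG R g
            vert_nonneg := hR.1
            mx_sub := fun F hF => (mem_mxG.1 hF).1
            mx_card := fun F hF => (mem_mxG.1 hF).2.1
            mx_indep := fun F hF => (mem_mxG.1 hF).2.2.1
            cover := fun x hx => cover_all hR hg hx
            inter := fun F hF F' hF' x h h' u hu => ?_ }, rfl, ?_, ?_⟩
  · have h1 := inter_aux hF hF' h
    have h2 := inter_aux hF' hF h'
    exact h1.2 (le_antisymm h1.1 h2.1) u hu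
  · refine ⟨fun u => - g u, fun F hF => ?_⟩
    obtain ⟨a1, a2, a3, a4⟩ := mem_mxG.1 hF
    refine ⟨fun i => - KFL g a3 a2 (fun j => if i = j then 1 else 0), ?_⟩
    have hk : ∀ y : Fin n → ℝ,
        (fun i => - KFL g a3 a2 (fun j => if i = j then 1 else 0)) ⬝ᵥ y = - KF g F y := by
      intro y
      have h1 := LinearMap.pi_apply_eq_sum_univ (KFL g a3 a2) y
      have h2 : KFL g a3 a2 y = KF g F y := rfl
      rw [← h2, h1]
      unfold dotProduct
      rw [← Finset.sum_neg_distrib]
      exact Finset.sum_congr rfl fun i _ => by rw [smul_eq_mul]; ring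
    refine ⟨fun u hu => ?_, fun u hu huF => ?_⟩
    · rw [hk, KF_mem g a3 hu]
    · rw [hk]
      exact neg_lt_neg (a4 u hu huF)
  · intro F hF v hv
    obtain ⟨a1, a2, a3, a4⟩ := mem_mxG.1 hF
    by_cases hvF : v ∈ F
    · have h1 := KF_mem g a3 hvF
      unfold KF at h1
      rw [h1]
    · exact (a4 v hv hvF).le

end Mono
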