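import Pool.Agent.Helper20.Mono.Crd
import Pool.Agent.Helper20.Mono.Goals

/-! Packet A1 of MP_aa7fc1_ag: spanning and star covering in coordinate subspaces. -/

namespace Mono

open Finset

variable {n : ℕ}

theorem mem_mxT {Φ : Fan n} {T : Finset (Fin n)} {τ : Finset (Fin n → ℤ)} :
    τ ∈ Φ.mxT T ↔ Φ.IsFace τ ∧ τ.card = T.card ∧ ∀ u ∈ τ, ∀ i, i ∉ T → u i = 0 := by
  unfold Fan.mxT
  rw [Finset.mem_filter, Fan.mem_faces]

/-- restriction to the coordinates in `T` -/
def resT (T : Finset (Fin n)) : (Fin n → ℝ) →ₗ[ℝ] (T → ℝ) where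
  toFun x i := x i
  map_add' _ _ := rfl
  map_smul' _ _ := rfl

@[simp] theorem resT_apply (T : Finset (Fin n)) (x : Fin n → ℝ) (i : T) : resT T x i = x i := rfl

theorem resT_inj {T : Finset (Fin n)} {x y : Fin n → ℝ} (hx : ∀ i, i ∉ T → x i = 0)
    (hy : ∀ i, i ∉ T → y i = 0) (h : resT T x = resT T y) : x = y := by
  funext i
  by_cases hi : i ∈ T
  · exact congrFun h ⟨i, hi⟩
  · rw [hx i hi, hy i hi]

theorem indep_res {T : Finset (Fin n)} {τ : Finset (Fin n → ℤ)} (h : Indep τ)
    (hs : ∀ u ∈ τ, ∀ i, i ∉ T → u i = 0) :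
    LinearIndependent ℝ (fun u : τ => resT T (toR (u : Fin n → ℤ))) := by
  rw [Fintype.linearIndependent_iff]
  intro g hg u
  have h0 : ∑ v : τ, g v • toR (v : Fin n → ℤ) = 0 := by
    refine resT_inj (T := T) ?_ ?_ ?_
    · intro i hi
      rw [Finset.sum_apply]
      refine Finset.sum_eq_zero fun v _ => ?_
      simp [toR, hs v.1 v.2 i hi]
    · intro i _; rfl
    · rw [map_sum, map_zero]
      simpa using hg
  exact (Fintype.linearIndependent_iff.1 h) g h0 u

theorem spanT : SpanT := by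
  intro n Φ T τ hτ y hy
  rw [mem_mxT] at hτ
  obtain ⟨hf, hc, hs⟩ := hτ
  have hex : ∃ c, IsCrd τ y c := by
    classical
    have hli := indep_res hf.indep hs
    have hb : Submodule.span ℝ (Set.range (fun u : τ => resT T (toR (u : Fin n → ℤ)))) = ⊤ := by
      refine LinearIndependent.span_eq_top_of_card_eq_finrank' hli ?_
      simp [hc]
    have hx : resT T y ∈
        Submodule.span ℝ (Set.range (fun u : τ => resT T (toR (u : Fin n → ℤ)))) := by
      rw [hb]; trivial
    rw [Submodule.mem_span_range_iff_exists_fun] at hx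
    obtain ⟨c, hc⟩ := hx
    refine ⟨fun v => if hv : v ∈ τ then c ⟨v, hv⟩ else 0, fun v hv => by simp [hv], ?_⟩
    have h1 : ∑ u ∈ τ, (if hv : u ∈ τ then c ⟨u, hv⟩ else 0) • toR u
        = ∑ v : τ, c v • toR (v : Fin n → ℤ) := by
      rw [← Finset.sum_coe_sort τ]
      refine Finset.sum_congr rfl fun v _ => ?_
      simp
    rw [h1]
    refine resT_inj (T := T) hy ?_ ?_
    · intro i hi
      rw [Finset.sum_apply]
      refine Finset.sum_eq_zero fun v _ => ?_
      simp [toR, hs v.1 v.2 i hi]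
    · rw [map_sum, ← hc]
      simp
  unfold crd
  rw [dif_pos hex]
  exact Classical.choose_spec hex

/-- coordinates with respect to a bigger independent set -/
theorem crd_of_subset {τ F : Finset (Fin n → ℤ)} (hF : Indep F) (hs : τ ⊆ F) {y : Fin n → ℝ}
    {c : (Fin n → ℤ) → ℝ} (h : IsCrd τ y c) : crd F y = c := by
  refine crd_unique hF ⟨fun u hu => h.1 u fun hu' => hu (hs hu'), ?_⟩
  rw [h.2]
  refine Finset.sum_subset hs fun u _ hu => ?_
  rw [h.1 u hu, zero_smul]

/-- extension by zero -/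
noncomputable def extT (T : Finset (Fin n)) : (T → ℝ) →ₗ[ℝ] (Fin n → ℝ) where
  toFun z i := if h : i ∈ T then z ⟨i, h⟩ else 0
  map_add' x y := by funext i; by_cases h : i ∈ T <;> simp [h]
  map_smul' a x := by funext i; by_cases h : i ∈ T <;> simp [h]

theorem extT_of_mem {T : Finset (Fin n)} (z : T → ℝ) {i : Fin n} (h : i ∈ T) :
    extT T z i = z ⟨i, h⟩ := by simp [extT, h]

theorem extT_of_notMem {T : Finset (Fin n)} (z : T → ℝ) {i : Fin n} (h : i ∉ T) :
    extT T z i = 0 := by simp [extT, h]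

theorem extT_resT {T : Finset (Fin n)} {x : Fin n → ℝ} (hx : ∀ i, i ∉ T → x i = 0) :
    extT T (resT T x) = x := by
  funext i
  by_cases h : i ∈ T
  · rw [extT_of_mem _ h, resT_apply]
  · rw [extT_of_notMem _ h, hx i h]

/-- the linear coordinate function of a maximal cone on `ℝ^T` -/
noncomputable def crdL (T : Finset (Fin n)) {F : Finset (Fin n → ℤ)} (h : Indep F)
    (hc : F.card = n) (u : Fin n → ℤ) : (T → ℝ) →ₗ[ℝ] ℝ where
  toFun z := crd F (extT T z) u
  map_add' x y := by rw [map_add, crd_add h hc]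
  map_smul' a x := by rw [map_smul, crd_smul h hc]; rfl

/-- coordinates of nonnegative points of `ℝ^T` are supported in `ℝ^T` -/
theorem crd_supp (Φ : Fan n) {F : Finset (Fin n → ℤ)} (hF : F ∈ Φ.mx) {T : Finset (Fin n)}
    {x : Fin n → ℝ} (hx : ∀ i, i ∉ T → x i = 0) (hn : ∀ u, 0 ≤ crd F x u) (u : Fin n → ℤ)
    (hu : u ∈ F) (hu0 : crd F x u ≠ 0) : ∀ i, i ∉ T → u i = 0 := by
  intro i hi
  have h1 := congrFun (sum_crd (Φ.mx_indep F hF) (Φ.mx_card F hF) x) i
  rw [hx i hi, Finset.sum_apply] at h1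
  have h2 := (Finset.sum_eq_zero_iff_of_nonneg (fun v hv => ?_)).1 h1 u hu
  · rw [Pi.smul_apply, smul_eq_mul, toR_apply, mul_eq_zero] at h2
    rcases h2 with h2 | h2
    · exact absurd h2 hu0
    · exact_mod_cast h2
  · rw [Pi.smul_apply, smul_eq_mul, toR_apply]
    exact mul_nonneg (hn v) (by exact_mod_cast Φ.vert_nonneg v (Φ.mx_sub F hF hv) i)

/-- the part of a cone in `ℝ^T` -/
noncomputable def part (T : Finset (Fin n)) (F : Finset (Fin n → ℤ)) : Finset (Fin n → ℤ) :=
  F.filter (fun u => ∀ i, i ∉ T → u i = 0)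

theorem part_card_le (Φ : Fan n) {F : Finset (Fin n → ℤ)} (hF : F ∈ Φ.mx)
    (T : Finset (Fin n)) : (part T F).card ≤ T.card := by
  have hli := indep_res (T := T) (τ := part T F)
    ((Φ.mx_indep F hF).subset (Finset.filter_subset _ _)) (fun u hu => (Finset.mem_filter.1 hu).2)
  have := hli.fintype_card_le_finrank
  simpa using this

theorem coverT (Φ : Fan n) (T : Finset (Fin n)) (x : Fin n → ℝ) (hx : ∀ i, i ∉ T → x i = 0)
    (hp : ∀ i, 0 ≤ x i) : ∃ τ ∈ Φ.mxT T, ∀ u, 0 ≤ crd τ x u := by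
  classical
  by_contra hcon
  push Not at hcon
  -- good cones: those with full part
  have hgood : ∀ F ∈ Φ.mx, (part T F).card = T.card → ∃ u, crd F x u < 0 := by
    intro F hF hc
    have hm : part T F ∈ Φ.mxT T := by
      rw [mem_mxT]
      exact ⟨⟨F, hF, Finset.filter_subset _ _⟩, hc, fun u hu => (Finset.mem_filter.1 hu).2⟩
    obtain ⟨u, hu⟩ := hcon _ hm
    refine ⟨u, ?_⟩
    rw [crd_of_subset (Φ.mx_indep F hF) (Finset.filter_subset _ _) (spanT n Φ T _ hm x hx)]
    exact hu
  set z : T → ℝ := resT T x with hz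
  have hzx : extT T z = x := extT_resT hx
  -- open neighbourhood
  have hev : ∀ᶠ t in nhdsWithin (0 : ℝ) (Set.Ioi 0), ∀ F ∈ Φ.mx, (part T F).card = T.card →
      ∃ u, crd F (extT T (z + t • (fun _ => 1))) u < 0 := by
    rw [Filter.eventually_all_finset]
    intro F hF
    by_cases hc : (part T F).card = T.card
    · obtain ⟨u, hu⟩ := hgood F hF hc
      have hcont : Continuous fun t : ℝ =>
          crdL T (Φ.mx_indep F hF) (Φ.mx_card F hF) u (z + t • (fun _ => (1 : ℝ))) := by
        have h1 : Continuous (crdL T (Φ.mx_indep F hF) (Φ.mx_card F hF) u) :=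
          LinearMap.continuous_of_finiteDimensional _
        exact h1.comp (by fun_prop)
      have h2 : (fun t : ℝ =>
          crdL T (Φ.mx_indep F hF) (Φ.mx_card F hF) u (z + t • (fun _ => (1 : ℝ)))) 0 < 0 := by
        simp only [zero_smul, add_zero]
        change crd F (extT T z) u < 0
        rw [hzx]; exact hu
      have h3 := (hcont.tendsto 0).eventually (gt_mem_nhds h2)
      refine (Filter.Eventually.filter_mono nhdsWithin_le_nhds h3).mono fun t ht _ => ⟨u, ht⟩
    · exact Filter.Eventually.of_forall fun t h => absurd h hc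
  obtain ⟨t, ht, ht0⟩ := (hev.and self_mem_nhdsWithin).exists
  set w : T → ℝ := z + t • (fun _ => 1) with hw
  have hwpos : ∀ i, 0 < w i := by
    intro i
    have : w i = x i + t * 1 := rfl
    rw [this]
    have := hp i
    linarith
  -- the open set
  choose! g hg using ht
  let U : Set (T → ℝ) := (⋂ F ∈ Φ.mx.filter (fun F => (part T F).card = T.card),
    {v | crd F (extT T v) (g F) < 0}) ∩ ⋂ i : T, {v | 0 < v i}
  have hUo : IsOpen U := by
    refine IsOpen.inter ?_ ?_
    · refine isOpen_biInter_finset fun F hF => ?_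
      have hF' := (Finset.mem_filter.1 hF).1
      have h1 : Continuous (crdL T (Φ.mx_indep F hF') (Φ.mx_card F hF') (g F)) :=
        LinearMap.continuous_of_finiteDimensional _
      exact isOpen_lt h1 continuous_const
    · exact isOpen_iInter_of_finite fun i => isOpen_lt continuous_const (continuous_apply i)
  have hUw : w ∈ U := by
    refine ⟨?_, ?_⟩
    · simp only [Set.mem_iInter, Set.mem_ofPred_eq]
      intro F hF
      exact hg F (Finset.mem_filter.1 hF).1 (Finset.mem_filter.1 hF).2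
    · simp only [Set.mem_iInter, Set.mem_ofPred_eq]
      exact hwpos
  -- the dense set
  let V : Finset (Fin n → ℤ) → Submodule ℝ (T → ℝ) := fun F =>
    Submodule.span ℝ ((part T F).image (fun u => resT T (toR u)) : Finset (T → ℝ))
  have hV : ∀ F ∈ Φ.mx.filter (fun F => (part T F).card ≠ T.card), V F ≠ ⊤ := by
    intro F hF htop
    have h1 : Module.finrank ℝ (V F) ≤ (part T F).card :=
      (finrank_span_finset_le_card _).trans Finset.card_image_le
    rw [htop, finrank_top] at h1
    have h2 := part_card_le Φ (Finset.mem_filter.1 hF).1 T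
    have h3 := (Finset.mem_filter.1 hF).2
    have h4 : Module.finrank ℝ (T → ℝ) = T.card := by simp
    omega
  have hD : Dense (⋂ F ∈ (Φ.mx.filter (fun F => (part T F).card ≠ T.card) : Finset _),
      ((V F : Set (T → ℝ))ᶜ)) := by
    refine dense_biInter_of_isOpen ?_ (Finset.countable_toSet _) ?_
    · intro F _
      exact (Submodule.closed_of_finiteDimensional (V F)).isOpen_compl
    · intro F hF
      rw [← interior_eq_empty_iff_dense_compl]
      by_contra hne
      rw [← ne_eq, ← Set.nonempty_iff_ne_empty] at hne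
      exact hV F hF (Submodule.eq_top_of_nonempty_interior' _ hne)
  obtain ⟨v, hvU, hvD⟩ := hD.inter_open_nonempty U hUo ⟨w, hUw⟩
  -- cover
  have hvp : ∀ i, 0 ≤ extT T v i := by
    intro i
    by_cases hi : i ∈ T
    · rw [extT_of_mem _ hi]
      exact (Set.mem_iInter.1 hvU.2 ⟨i, hi⟩ : 0 < v ⟨i, hi⟩).le
    · rw [extT_of_notMem _ hi]
  obtain ⟨F, hF, hFc⟩ := Φ.cover (extT T v) hvp
  by_cases hc : (part T F).card = T.card
  · have := hvU.1
    simp only [Set.mem_iInter, Set.mem_ofPred_eq] at this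
    have := this F (Finset.mem_filter.2 ⟨hF, hc⟩)
    exact absurd this (not_lt.2 (hFc _))
  · simp only [Set.mem_iInter] at hvD
    refine hvD F (Finset.mem_filter.2 ⟨hF, hc⟩) ?_
    have h1 := sum_crd (Φ.mx_indep F hF) (Φ.mx_card F hF) (extT T v)
    have h2 : v = ∑ u ∈ part T F, crd F (extT T v) u • resT T (toR u) := by
      have h3 : resT T (extT T v) = v := by
        funext i
        rw [resT_apply, extT_of_mem _ i.2]
      conv_lhs => rw [← h3, ← h1, map_sum]
      symm
      have h4 : ∀ u ∈ F, u ∉ part T F →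
          resT T (crd F (extT T v) u • toR u) = 0 := by
        intro u hu hu'
        have : crd F (extT T v) u = 0 := by
          by_contra hne
          exact hu' (Finset.mem_filter.2 ⟨hu, crd_supp Φ hF
            (fun i hi => extT_of_notMem _ hi) hFc u hu hne⟩)
        rw [this, zero_smul, map_zero]
      rw [← Finset.sum_subset (Finset.filter_subset _ _) h4]
      exact Finset.sum_congr rfl fun u _ => (map_smul _ _ _).symm
    rw [SetLike.mem_coe, h2]
    refine Submodule.sum_mem _ fun u hu => Submodule.smul_mem _ _ (Submodule.subset_span ?_)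
    exact Finset.mem_coe.2 (Finset.mem_image_of_mem _ hu)

theorem starCoverT : StarCoverT := by
  classical
  intro n Φ T σ hσ hσT y hy hyp
  set p : Fin n → ℝ := ∑ u ∈ σ, toR u with hp
  have hpT : ∀ i, i ∉ T → p i = 0 := by
    intro i hi
    rw [hp, Finset.sum_apply]
    exact Finset.sum_eq_zero fun u hu => by simp [hσT u hu i hi]
  have hunn : ∀ u ∈ σ, ∀ i, 0 ≤ u i := fun u hu i => Φ.vert_nonneg u (Fan.IsFace.subset_vert Φ hσ hu) i
  have hpi : ∀ i, (∃ u ∈ σ, u i ≠ 0) → 1 ≤ p i := by
    rintro i ⟨u, hu, hui⟩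
    have h1 : (1 : ℝ) ≤ toR u i := by
      have := hunn u hu i
      have h2 : 1 ≤ u i := by omega
      simpa using (by exact_mod_cast h2 : (1 : ℝ) ≤ (u i : ℝ))
    rw [hp, Finset.sum_apply]
    refine h1.trans (Finset.single_le_sum (f := fun v => toR v i) (fun v hv => ?_) hu)
    simpa using (by exact_mod_cast hunn v hv i : (0 : ℝ) ≤ (v i : ℝ))
  -- for large k the point is nonnegative
  obtain ⟨K, hK⟩ : ∃ K : ℕ, ∀ i, |y i| ≤ K := by
    obtain ⟨K, hK⟩ := exists_nat_ge (∑ i, |y i|)
    exact ⟨K, fun i => (Finset.single_le_sum (f := fun i => |y i|)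
      (fun _ _ => abs_nonneg _) (Finset.mem_univ i)).trans hK⟩
  have hxk : ∀ k : ℕ, K ≤ k → ∃ τ ∈ Φ.mxT T, ∀ u, 0 ≤ crd τ ((k : ℝ) • p + y) u := by
    intro k hk
    refine coverT Φ T _ ?_ ?_
    · intro i hi
      simp [hpT i hi, hy i hi]
    · intro i
      by_cases hi : i ∈ T
      · by_cases h0 : ∀ u ∈ σ, u i = 0
        · have h1 : p i = 0 := by
            rw [hp, Finset.sum_apply]
            exact Finset.sum_eq_zero fun u hu => by simp [h0 u hu]
          simpa [h1] using hyp i hi h0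
        · push Not at h0
          have h1 := hpi i h0
          have h2 := hK i
          have h3 : (K : ℝ) ≤ k := by exact_mod_cast hk
          have h4 := neg_abs_le (y i)
          have h5 : (0 : ℝ) ≤ k := Nat.cast_nonneg k
          simp only [Pi.add_apply, Pi.smul_apply, smul_eq_mul]
          nlinarith
      · simp [hpT i hi, hy i hi]
  obtain ⟨τ, hτ, hfreq⟩ : ∃ τ ∈ Φ.mxT T, ∀ M : ℕ, ∃ k ≥ M, ∀ u, 0 ≤ crd τ ((k : ℝ) • p + y) u := by
    by_contra hcon
    push Not at hcon
    choose! M hM using hcon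
    obtain ⟨τ, hτ, h⟩ := hxk (max K ((Φ.mxT T).sup M)) (le_max_left _ _)
    obtain ⟨u, hu⟩ := hM τ hτ _ (show M τ ≤ max K ((Φ.mxT T).sup M) from
      (Finset.le_sup hτ).trans (le_max_right _ _))
    exact absurd hu (not_lt.2 (h u))
  have hτ' := mem_mxT.1 hτ
  obtain ⟨F', hF', hτF'⟩ := hτ'.1
  have hI' := Φ.mx_indep F' hF'
  have hC' := Φ.mx_card F' hF'
  -- on ℝ^T the coordinates of τ and F' agree
  have hag : ∀ x : Fin n → ℝ, (∀ i, i ∉ T → x i = 0) → crd F' x = crd τ x := fun x hx =>
    crd_of_subset hI' hτF' (spanT n Φ T τ hτ x hx)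
  have hkp : ∀ k : ℕ, ∀ i, i ∉ T → ((k : ℝ) • p + y) i = 0 := by
    intro k i hi
    simp [hpT i hi, hy i hi]
  have hlin : ∀ (k : ℕ) (u), crd τ ((k : ℝ) • p + y) u = k * crd F' p u + crd F' y u := by
    intro k u
    rw [← hag _ (hkp k), crd_add hI' hC', crd_smul hI' hC']
  have hpos : ∀ u, 0 ≤ crd F' p u := by
    intro u
    by_contra hneg
    push Not at hneg
    obtain ⟨M, hM⟩ := exists_nat_gt (crd F' y u / (-crd F' p u))
    obtain ⟨k, hk, h⟩ := hfreq M
    have h1 := h u
    rw [hlin] at h1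
    have h2 : (M : ℝ) ≤ k := by exact_mod_cast hk
    rw [div_lt_iff₀ (by linarith)] at hM
    nlinarith
  obtain ⟨F, hF, hσF⟩ := hσ
  have hcF : crd F p = fun u => if u ∈ σ then 1 else 0 := by
    refine crd_of_subset (Φ.mx_indep F hF) hσF ⟨fun u hu => by simp [hu], ?_⟩
    rw [hp]
    exact Finset.sum_congr rfl fun u hu => by simp [hu]
  have hσF' : σ ⊆ F' := by
    intro u hu
    by_contra hu'
    have := Φ.inter F hF F' hF' p (fun v => by rw [hcF]; dsimp only; split_ifs <;> norm_num)
      hpos u hu'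
    rw [hcF] at this
    simp [hu] at this
  have hcF' : crd F' p = fun u => if u ∈ σ then 1 else 0 := by
    refine crd_of_subset hI' hσF' ⟨fun u hu => by simp [hu], ?_⟩
    rw [hp]
    exact Finset.sum_congr rfl fun u hu => by simp [hu]
  refine ⟨τ, hτ, ?_, ?_⟩
  · intro u hu
    by_contra hu'
    have h1 : crd F' p u = 0 := by
      rw [hag p hpT]
      exact crd_of_notMem _ _ hu'
    rw [hcF'] at h1
    simp [hu] at h1
  · intro u hu
    obtain ⟨k, _, h⟩ := hfreq 0
    have h1 := h u
    rw [hlin, hcF'] at h1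
    simp only [hu, if_false, mul_zero, zero_add] at h1
    rw [← hag y hy]
    exact h1

end Mono
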