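import Pool.Agent.Helper20.Mono.Crd
import Pool.Agent.Helper20.Mono.Goals

/-! Packet B2 of MP_aa7fc1_ag: vanishing of the localization sums in low degree. -/

namespace Mono

open Finset MvPolynomial

variable {n : ℕ}

/-- the localization sum as a linear map -/
noncomputable def EL (Φ : Fan n) (σ : Finset (Fin n → ℤ)) (w : Fin n → ℝ) :
    MvPolynomial (Fin n → ℤ) ℝ →ₗ[ℝ] ℝ where
  toFun y := Φ.Esum σ w y
  map_add' x y := by
    unfold Fan.Esum
    rw [← Finset.sum_add_distrib]
    exact Finset.sum_congr rfl fun F _ => by rw [map_add, add_div]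
  map_smul' a x := by
    unfold Fan.Esum
    rw [RingHom.id_apply, smul_eq_mul, Finset.mul_sum]
    exact Finset.sum_congr rfl fun F _ => by rw [smul_eval, mul_div_assoc]

theorem EL_apply (Φ : Fan n) (σ : Finset (Fin n → ℤ)) (w : Fin n → ℝ)
    (y : MvPolynomial (Fin n → ℤ) ℝ) : EL Φ σ w y = Φ.Esum σ w y := rfl

theorem Esum_nonface (Φ : Fan n) {σ : Finset (Fin n → ℤ)} (h : ¬ Φ.IsFace σ) (w : Fin n → ℝ)
    (y : MvPolynomial (Fin n → ℤ) ℝ) : Φ.Esum σ w y = 0 := by
  unfold Fan.Esum
  refine Finset.sum_eq_zero fun F hF => ?_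
  exact absurd ⟨F, (Finset.mem_filter.1 hF).1, (Finset.mem_filter.1 hF).2⟩ h

theorem Esum_X_mul (Φ : Fan n) {σ : Finset (Fin n → ℤ)} {w : Fin n → ℝ} (hw : Φ.Generic w)
    {u : Fin n → ℤ} (hu : u ∉ σ) (y : MvPolynomial (Fin n → ℤ) ℝ) :
    Φ.Esum σ w (X u * y) = Φ.Esum (insert u σ) w y := by
  classical
  unfold Fan.Esum
  have hsub : Φ.mx.filter (fun F => insert u σ ⊆ F) ⊆ Φ.mx.filter (fun F => σ ⊆ F) := by
    intro F hF
    rw [Finset.mem_filter] at hF ⊢
    exact ⟨hF.1, (Finset.subset_insert _ _).trans hF.2⟩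
  rw [← Finset.sum_subset hsub]
  · refine Finset.sum_congr rfl fun F hF => ?_
    rw [Finset.mem_filter, Finset.insert_subset_iff] at hF
    obtain ⟨hF, huF, hσF⟩ := hF
    have h1 : F \ σ = insert u (F \ insert u σ) := by
      ext v
      simp only [Finset.mem_sdiff, Finset.mem_insert]
      constructor
      · rintro ⟨h1, h2⟩
        by_cases h : v = u
        · exact Or.inl h
        · exact Or.inr ⟨h1, by tauto⟩
      · rintro (rfl | ⟨h1, h2⟩)
        · exact ⟨huF, hu⟩
        · exact ⟨h1, by tauto⟩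
    have h2 : crd F w u ≠ 0 := hw.1 F hF u huF
    rw [h1, Finset.prod_insert (by simp), map_mul, eval_X]
    field_simp
  · intro F hF hF'
    rw [Finset.mem_filter] at hF hF'
    have : u ∉ F := fun h => hF' ⟨hF.1, Finset.insert_subset h hF.2⟩
    rw [map_mul, eval_X, crd_of_notMem _ _ this, zero_mul, zero_div]

theorem exists_dual (Φ : Fan n) {σ : Finset (Fin n → ℤ)} (h : Φ.IsFace σ) (t : Fin n → ℤ) : ∃ x : Fin n → ℝ, ∀ v ∈ σ, x ⬝ᵥ toR v = if v = t then 1 else 0 := by
  classical
  obtain ⟨F, hF, hs⟩ := h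
  have hI := Φ.mx_indep F hF
  have hC := Φ.mx_card F hF
  let L : (Fin n → ℝ) →ₗ[ℝ] ℝ :=
    { toFun := fun z => crd F z t
      map_add' := fun a b => crd_add hI hC a b t
      map_smul' := fun a b => crd_smul hI hC a b t }
  refine ⟨fun i => L (fun j => if i = j then 1 else 0), fun v hv => ?_⟩
  have h1 := LinearMap.pi_apply_eq_sum_univ L (toR v)
  have h2 : L (toR v) = if t = v then 1 else 0 := crd_toR hI (hs hv) t
  rw [h2] at h1
  have h3 : (if v = t then (1 : ℝ) else 0) = if t = v then 1 else 0 := by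
    by_cases h : v = t
    · simp [h]
    · rw [if_neg h, if_neg (fun h' => h h'.symm)]
  rw [h3, h1]
  unfold dotProduct
  exact Finset.sum_congr rfl fun i _ => by rw [smul_eq_mul, mul_comm]

theorem cs_mono_h22 {σ τ : Finset (Fin n → ℤ)} (h : σ ⊆ τ) (hs : cs σ = univ) : cs τ = univ := by
  refine Finset.eq_univ_iff_forall.2 fun i => ?_
  have := Finset.eq_univ_iff_forall.1 hs i
  unfold cs at this ⊢
  rw [Finset.mem_filter] at this ⊢
  obtain ⟨_, u, hu, hi⟩ := this
  exact ⟨Finset.mem_univ _, u, h hu, hi⟩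

theorem lowMono (hK : KFormula) (Φ : Fan n) {w : Fin n → ℝ} (hw : Φ.Generic w) (d : ℕ) :
    ∀ (σ : Finset (Fin n → ℤ)), Φ.IsFace σ → cs σ = univ →
    ∀ m : (Fin n → ℤ) →₀ ℕ, m.degree = d → d + σ.card < n →
    Φ.Esum σ w (monomial m 1) = 0 := by
  classical
  induction d with
  | zero =>
    intro σ hσ hcs m hm hd
    rw [Finsupp.degree_eq_zero_iff] at hm
    subst hm
    have h1 : (monomial (0 : (Fin n → ℤ) →₀ ℕ) (1 : ℝ)) = 1 := rfl
    rw [h1, hK n Φ σ hσ w hw, if_neg]
    rw [hcs, Finset.card_univ, Fintype.card_fin]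
    omega
  | succ d ih =>
    intro σ hσ hcs m hm hd
    -- the key vanishing
    have key : ∀ u, u ∉ σ → ∀ m' : (Fin n → ℤ) →₀ ℕ, m'.degree = d →
        Φ.Esum σ w (X u * monomial m' 1) = 0 := by
      intro u hu m' hm'
      rw [Esum_X_mul Φ hw hu]
      by_cases hf : Φ.IsFace (insert u σ)
      · refine ih _ hf (cs_mono_h22 (Finset.subset_insert _ _) hcs) m' hm' ?_
        rw [Finset.card_insert_of_notMem hu]
        omega
      · exact Esum_nonface Φ hf w _
    have hsplit : ∀ t ∈ m.support, ∃ m' : (Fin n → ℤ) →₀ ℕ, m'.degree = d ∧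
        monomial m (1 : ℝ) = X t * monomial m' 1 := by
      intro t ht
      have hle : Finsupp.single t 1 ≤ m := by
        rw [Finsupp.single_le_iff]
        exact Nat.one_le_iff_ne_zero.2 (Finsupp.mem_support_iff.1 ht)
      refine ⟨m - Finsupp.single t 1, ?_, ?_⟩
      · have h1 := congrArg Finsupp.degree (tsub_add_cancel_of_le hle)
        rw [map_add, hm, Finsupp.degree_single] at h1
        omega
      · rw [X, monomial_mul, one_mul, add_tsub_cancel_of_le hle]
    by_cases hsup : m.support ⊆ σ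
    · -- case (b)
      have hne : m.support.Nonempty := by
        rw [Finsupp.support_nonempty_iff]
        rintro rfl
        simp at hm
      obtain ⟨t, ht⟩ := hne
      obtain ⟨m', hm', he⟩ := hsplit t ht
      obtain ⟨x, hx⟩ := exists_dual Φ hσ t
      have h1 : Φ.Esum σ w (X t * monomial m' 1) =
          (x ⬝ᵥ w) * Φ.Esum σ w (monomial m' 1) -
            ∑ u ∈ Φ.vert \ σ, (x ⬝ᵥ toR u) * Φ.Esum σ w (X u * monomial m' 1) := by
        unfold Fan.Esum
        simp only [Finset.mul_sum]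
        rw [Finset.sum_comm, ← Finset.sum_sub_distrib]
        refine Finset.sum_congr rfl fun F hF => ?_
        rw [Finset.mem_filter] at hF
        have h2 := dot_eq_sum_crd (Φ.mx_indep F hF.1) (Φ.mx_card F hF.1) x w
        have h3 : ∑ u ∈ F, crd F w u * (x ⬝ᵥ toR u) =
            crd F w t + ∑ u ∈ Φ.vert \ σ, crd F w u * (x ⬝ᵥ toR u) := by
          have h4 : ∑ u ∈ F, crd F w u * (x ⬝ᵥ toR u) =
              ∑ u ∈ Φ.vert, crd F w u * (x ⬝ᵥ toR u) := by
            refine Finset.sum_subset (Φ.mx_sub F hF.1) fun u _ hu => ?_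
            rw [crd_of_notMem _ _ hu, zero_mul]
          have h5 : σ ⊆ Φ.vert := hF.2.trans (Φ.mx_sub F hF.1)
          rw [h4, ← Finset.sum_sdiff h5, add_comm]
          congr 1
          rw [Finset.sum_eq_single_of_mem t (hsup ht)]
          · rw [hx t (hsup ht), if_pos rfl, mul_one]
          · intro v hv hvt
            rw [hx v hv, if_neg hvt, mul_zero]
        rw [h3] at h2
        simp only [map_mul, eval_X]
        have h6 : ∑ u ∈ Φ.vert \ σ, (x ⬝ᵥ toR u) * (crd F w u * (eval (crd F w)) (monomial m' 1) /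
            ((idx (F : Set (Fin n → ℤ)) : ℝ) * ∏ v ∈ F \ σ, crd F w v)) =
            (∑ u ∈ Φ.vert \ σ, crd F w u * (x ⬝ᵥ toR u)) * ((eval (crd F w)) (monomial m' 1) /
            ((idx (F : Set (Fin n → ℤ)) : ℝ) * ∏ v ∈ F \ σ, crd F w v)) := by
          rw [Finset.sum_mul]
          exact Finset.sum_congr rfl fun u _ => by ring
        rw [h6, h2]
        ring
      rw [he, h1, ih σ hσ hcs m' hm' (by omega), mul_zero, zero_sub, neg_eq_zero]
      refine Finset.sum_eq_zero fun u hu => ?_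
      rw [key u (Finset.mem_sdiff.1 hu).2 m' hm', mul_zero]
    · -- case (a)
      obtain ⟨u, hu, hu'⟩ := Finset.not_subset.1 hsup
      obtain ⟨m', hm', he⟩ := hsplit u hu
      rw [he]
      exact key u hu' m' hm'

theorem lowDegree (hK : KFormula) : LowDegree := by
  intro n Φ σ hσ hcs w hw d y hy hd
  rw [← EL_apply, ← support_sum_monomial_coeff y, map_sum]
  refine Finset.sum_eq_zero fun m hm => ?_
  have h1 : monomial m (coeff m y) = (coeff m y) • monomial m (1 : ℝ) := by
    rw [smul_monomial, smul_eq_mul, mul_one]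
  rw [h1, map_smul, EL_apply, lowMono hK Φ hw d σ hσ hcs m _ hd, smul_zero]
  have h2 := hy (mem_support_iff.1 hm)
  rw [Finsupp.degree_eq_weight_one]
  exact h2

end Mono
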